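import Mathlib

/-!
# Lowest and highest forms of polynomials in several variables

Project GR (MP_295d38_ag): polynomial maps whose last component has the largest degree.
-/

set_option autoImplicit false

namespace Pool.Agent.Helper52.GR

open MvPolynomial

variable {σ : Type*} {K : Type*} [Field K]

/-- `A(x) ↦ A(x t)`, the coefficients are the homogeneous components. -/
noncomputable def sg : MvPolynomial σ K →ₐ[K] Polynomial (MvPolynomial σ K) :=
  aeval fun i => Polynomial.C (X i) * Polynomial.X

theorem sg_monomial (s : σ →₀ ℕ) (a : K) :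
    sg (monomial s a) = Polynomial.C (monomial s a) * Polynomial.X ^ s.degree := by
  rw [sg, aeval_monomial]
  have h1 : (s.prod fun i k => (Polynomial.C (X i : MvPolynomial σ K) * Polynomial.X) ^ k) =
      (s.prod fun i k => Polynomial.C (X i ^ k)) * Polynomial.X ^ s.degree := by
    simp only [mul_pow, Finsupp.prod, Finset.prod_mul_distrib]
    rw [Finset.prod_pow_eq_pow_sum]
    simp only [map_pow]
    rfl
  rw [h1, monomial_eq, map_mul]
  have h2 : Polynomial.C (s.prod fun i k => (X i : MvPolynomial σ K) ^ k) =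
      s.prod fun i k => Polynomial.C (X i ^ k) := by
    rw [Finsupp.prod, map_prod]
    rfl
  rw [h2, mul_assoc]
  rfl

theorem coeff_sg (A : MvPolynomial σ K) (n : ℕ) :
    (sg A).coeff n = homogeneousComponent n A := by
  induction A using MvPolynomial.induction_on' with
  | monomial s a =>
    rw [sg_monomial, Polynomial.coeff_C_mul, Polynomial.coeff_X_pow,
      homogeneousComponent_of_mem (mem_homogeneousSubmodule s.degree _ |>.2
        (isHomogeneous_monomial a rfl))]
    split_ifs <;> simp
  | add p q hp hq => rw [map_add, Polynomial.coeff_add, hp, hq, map_add]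

theorem natDegree_sg {A : MvPolynomial σ K} {p : ℕ} (h : A.totalDegree ≤ p) :
    (sg A).natDegree ≤ p := by
  rw [Polynomial.natDegree_le_iff_coeff_eq_zero]
  intro n hn
  rw [coeff_sg]
  exact homogeneousComponent_eq_zero n A (lt_of_le_of_lt h hn)

/-! ### Highest forms -/

theorem hi_mul {A B : MvPolynomial σ K} {p q : ℕ} (hA : A.totalDegree ≤ p)
    (hB : B.totalDegree ≤ q) : homogeneousComponent (p + q) (A * B) =
      homogeneousComponent p A * homogeneousComponent q B := by
  rw [← coeff_sg, ← coeff_sg, ← coeff_sg, map_mul]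
  exact Polynomial.coeff_mul_add_eq_of_natDegree_le (natDegree_sg hA) (natDegree_sg hB)

theorem hi_pow {A : MvPolynomial σ K} {p : ℕ} (hA : A.totalDegree ≤ p) (n : ℕ) :
    homogeneousComponent (n * p) (A ^ n) = homogeneousComponent p A ^ n := by
  rw [← coeff_sg, ← coeff_sg, map_pow]
  exact Polynomial.coeff_pow_of_natDegree_le (natDegree_sg hA)

theorem hi_prod {ι : Type*} (s : Finset ι) (A : ι → MvPolynomial σ K) (p : ι → ℕ)
    (h : ∀ i ∈ s, (A i).totalDegree ≤ p i) :
    (∏ i ∈ s, A i).totalDegree ≤ ∑ i ∈ s, p i ∧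
      homogeneousComponent (∑ i ∈ s, p i) (∏ i ∈ s, A i) =
        ∏ i ∈ s, homogeneousComponent (p i) (A i) := by
  classical
  induction s using Finset.induction_on with
  | empty =>
    simp only [Finset.prod_empty, Finset.sum_empty]
    refine ⟨by rw [totalDegree_one], ?_⟩
    rw [homogeneousComponent_zero, coeff_zero_one, map_one]
  | insert a s ha ih =>
    obtain ⟨h1, h2⟩ := ih fun i hi => h i (Finset.mem_insert_of_mem hi)
    have h3 := h a (Finset.mem_insert_self a s)
    rw [Finset.prod_insert ha, Finset.sum_insert ha, Finset.prod_insert ha]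
    refine ⟨(totalDegree_mul _ _).trans (add_le_add h3 h1), ?_⟩
    rw [hi_mul h3 h1, h2]

/-! ### Lowest forms -/

/-- `A` has no components of degree less than `p` and `A₀` is its component of degree `p`. -/
def Lo (p : ℕ) (A A₀ : MvPolynomial σ K) : Prop :=
  (∀ j < p, homogeneousComponent j A = 0) ∧ homogeneousComponent p A = A₀

theorem lo_iff {p : ℕ} {A A₀ : MvPolynomial σ K} :
    Lo p A A₀ ↔ ∃ B, sg A = Polynomial.X ^ p * B ∧ B.coeff 0 = A₀ := by
  constructor
  · rintro ⟨h1, h2⟩
    have h3 : Polynomial.X ^ p ∣ sg A := by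
      rw [Polynomial.X_pow_dvd_iff]
      intro j hj
      rw [coeff_sg, h1 j hj]
    obtain ⟨B, hB⟩ := h3
    refine ⟨B, hB, ?_⟩
    rw [← h2, ← coeff_sg, hB]
    simpa using (Polynomial.coeff_X_pow_mul B p 0).symm
  · rintro ⟨B, hB, h0⟩
    refine ⟨fun j hj => ?_, ?_⟩
    · rw [← coeff_sg, hB]
      exact (Polynomial.X_pow_dvd_iff.1 (dvd_mul_right _ _)) j hj
    · rw [← coeff_sg, hB, ← h0]
      simpa using Polynomial.coeff_X_pow_mul B p 0

theorem Lo.mul {p q : ℕ} {A A₀ B B₀ : MvPolynomial σ K} (hA : Lo p A A₀) (hB : Lo q B B₀) :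
    Lo (p + q) (A * B) (A₀ * B₀) := by
  rw [lo_iff] at *
  obtain ⟨A', h1, h2⟩ := hA
  obtain ⟨B', h3, h4⟩ := hB
  refine ⟨A' * B', ?_, ?_⟩
  · rw [map_mul, h1, h3, pow_add]
    ring
  · rw [Polynomial.mul_coeff_zero, h2, h4]

theorem Lo.pow {p : ℕ} {A A₀ : MvPolynomial σ K} (hA : Lo p A A₀) (n : ℕ) :
    Lo (n * p) (A ^ n) (A₀ ^ n) := by
  rw [lo_iff] at *
  obtain ⟨A', h1, h2⟩ := hA
  refine ⟨A' ^ n, ?_, ?_⟩
  · rw [map_pow, h1, mul_pow, ← pow_mul, mul_comm p n]
  · rw [Polynomial.coeff_zero_eq_eval_zero, Polynomial.eval_pow,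
      ← Polynomial.coeff_zero_eq_eval_zero, h2]

theorem lo_one : Lo 0 (1 : MvPolynomial σ K) 1 := by
  refine ⟨fun j hj => absurd hj (Nat.not_lt_zero j), ?_⟩
  rw [homogeneousComponent_zero, coeff_zero_one, map_one]

theorem Lo.prod {ι : Type*} (s : Finset ι) (A A₀ : ι → MvPolynomial σ K) (p : ι → ℕ)
    (h : ∀ i ∈ s, Lo (p i) (A i) (A₀ i)) :
    Lo (∑ i ∈ s, p i) (∏ i ∈ s, A i) (∏ i ∈ s, A₀ i) := by
  classical
  induction s using Finset.induction_on with
  | empty => exact lo_one
  | insert a s ha ih =>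
    rw [Finset.prod_insert ha, Finset.sum_insert ha, Finset.prod_insert ha]
    exact (h a (Finset.mem_insert_self a s)).mul
      (ih fun i hi => h i (Finset.mem_insert_of_mem hi))

theorem lo_hom {p : ℕ} {A : MvPolynomial σ K} (h : A.IsHomogeneous p) : Lo p A A := by
  refine ⟨fun j hj => ?_, ?_⟩
  · rw [homogeneousComponent_of_mem (mem_homogeneousSubmodule p A |>.2 h), if_neg hj.ne]
  · rw [homogeneousComponent_of_mem (mem_homogeneousSubmodule p A |>.2 h), if_pos rfl]

/-- Substitution: lowest forms. -/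
theorem Lo.comp {μ : ℕ} {P : MvPolynomial σ K} {Θ ℓ : σ → MvPolynomial σ K}
    (hΘ : ∀ i, Lo 1 (Θ i) (ℓ i)) (hP : ∀ j < μ, homogeneousComponent j P = 0) :
    Lo μ (bind₁ Θ P) (bind₁ ℓ (homogeneousComponent μ P)) := by
  have h0 : Lo μ P (homogeneousComponent μ P) := ⟨hP, rfl⟩
  rw [lo_iff] at h0 ⊢
  obtain ⟨P', hP1, hP2⟩ := h0
  have h1 : ∀ i, ∃ B, sg (Θ i) = Polynomial.X ^ 1 * B ∧ B.coeff 0 = ℓ i := fun i =>
    lo_iff.1 (hΘ i)
  choose T hT1 hT2 using h1
  let χ : Polynomial (MvPolynomial σ K) →+* Polynomial (MvPolynomial σ K) :=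
    Polynomial.eval₂RingHom ((aeval T : MvPolynomial σ K →ₐ[K] _) : MvPolynomial σ K →+* _)
      Polynomial.X
  have hχC : ∀ A, χ (Polynomial.C A) = aeval T A := fun A => by
    simp [χ]
  have hχX : χ Polynomial.X = Polynomial.X := by simp [χ]
  have hsg : ∀ A : MvPolynomial σ K, χ (sg A) = sg (bind₁ Θ A) := by
    intro A
    induction A using MvPolynomial.induction_on with
    | C a =>
      rw [algHom_C, algHom_C]
      have h2 : sg (C a : MvPolynomial σ K) = algebraMap K _ a := algHom_C _ _
      have h3 : (algebraMap K (Polynomial (MvPolynomial σ K))) a =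
        Polynomial.C (C a : MvPolynomial σ K) := rfl
      have h4 : sg ((algebraMap K (MvPolynomial σ K)) a) = algebraMap K _ a := AlgHom.commutes _ _
      rw [h4, h3, hχC, algHom_C]
      rfl
    | add p q hp hq => rw [map_add, map_add, map_add, map_add, hp, hq]
    | mul_X p i hp =>
      rw [map_mul, map_mul, map_mul, map_mul, hp]
      congr 1
      rw [bind₁_X_right, hT1, pow_one]
      have h2 : sg (X i : MvPolynomial σ K) = Polynomial.C (X i) * Polynomial.X := aeval_X _ _
      rw [h2, map_mul, hχC, hχX, aeval_X, mul_comm]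
  refine ⟨χ P', ?_, ?_⟩
  · rw [← hsg, hP1, map_mul, map_pow, hχX]
  · rw [← hP2]
    have h3 : ∀ B : Polynomial (MvPolynomial σ K), (χ B).coeff 0 = bind₁ ℓ (B.coeff 0) := by
      intro B
      induction B using Polynomial.induction_on' with
      | add p q hp hq => rw [map_add, Polynomial.coeff_add, hp, hq, Polynomial.coeff_add, map_add]
      | monomial n A =>
        rw [← Polynomial.C_mul_X_pow_eq_monomial, map_mul, map_pow, hχX, hχC]
        rcases Nat.eq_zero_or_pos n with rfl | hn
        · rw [pow_zero, mul_one, mul_one, Polynomial.coeff_C_zero]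
          have h4 : ((aeval T A).coeff 0 : MvPolynomial σ K) =
              ((Polynomial.constantCoeff : Polynomial (MvPolynomial σ K) →+* _).comp
                ((aeval T : MvPolynomial σ K →ₐ[K] _) : MvPolynomial σ K →+* _)) A := rfl
          rw [h4]
          have h5 : ((Polynomial.constantCoeff : Polynomial (MvPolynomial σ K) →+* _).comp
                ((aeval T : MvPolynomial σ K →ₐ[K] _) : MvPolynomial σ K →+* _)) =
              ((bind₁ ℓ : MvPolynomial σ K →ₐ[K] _) : MvPolynomial σ K →+* _) := by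
            apply MvPolynomial.ringHom_ext
            · intro a
              rw [RingHom.comp_apply]
              change Polynomial.constantCoeff (aeval T (C a)) = bind₁ ℓ (C a)
              rw [algHom_C, algHom_C]
              simp [Polynomial.algebraMap_apply]
            · intro i
              rw [RingHom.comp_apply]
              change Polynomial.constantCoeff (aeval T (X i)) = bind₁ ℓ (X i)
              rw [aeval_X, bind₁_X_right]
              exact hT2 i
          rw [h5]
          rfl
        · rw [Polynomial.coeff_mul_X_pow', if_neg (by omega), Polynomial.coeff_C_mul,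
            Polynomial.coeff_X_pow, if_neg (by omega), mul_zero, map_zero]
    rw [h3]

end Pool.Agent.Helper52.GR
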