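import Pool.Agent.Helper52.GR.Tools

/-!
# The case of equality
-/

set_option autoImplicit false

namespace Pool.Agent.Helper52.GR

open MvPolynomial

variable {σ : Type*} [DecidableEq σ] {K : Type*} [Field K]

/-- the weights -/
def wt (N : σ) (e d : ℕ) : σ → ℕ := fun i => if i = N then d else e

/-- the weighted scaling -/
def ws (N : σ) (e d : ℕ) (t : K) (x : σ → K) : σ → K := fun i => t ^ wt N e d i * x i

/-- translations preserving a polynomial -/
def Stab (g : MvPolynomial σ K) : Set (σ → K) := {u | ∀ v, eval (v + u) g = eval v g}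

omit [DecidableEq σ] in
theorem Stab.add {g : MvPolynomial σ K} {u u' : σ → K} (h : u ∈ Stab g) (h' : u' ∈ Stab g) :
    u + u' ∈ Stab g := by
  intro v
  rw [← add_assoc, h' (v + u), h v]

omit [DecidableEq σ] in
theorem Stab.smul {g : MvPolynomial σ K} {b : ℕ} (hg : g.IsHomogeneous b) {u : σ → K}
    (h : u ∈ Stab g) (t : K) : t • u ∈ Stab g := by
  intro v
  by_cases ht : t = 0
  · rw [ht, zero_smul, add_zero]
  · have e1 : v + t • u = t • (t⁻¹ • v + u) := by
      rw [smul_add, smul_smul, mul_inv_cancel₀ ht, one_smul]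
    rw [e1, eval_smul_hom hg, h, ← eval_smul_hom hg, smul_smul, mul_inv_cancel₀ ht, one_smul]

omit [DecidableEq σ] in
theorem Stab.neg {g : MvPolynomial σ K} {u : σ → K} (h : u ∈ Stab g) : -u ∈ Stab g := by
  intro v
  have := h (v + -u)
  rw [neg_add_cancel_right] at this
  exact this.symm

omit [DecidableEq σ] in
/-- If a translate of a form is a homogeneous function then it is the form. -/
theorem stab_of_hom [Infinite K] {q : MvPolynomial σ K} {b : ℕ} {u : σ → K}
    (h : ∀ (s : K) (v : σ → K), eval (s • v + u) q = s ^ b * eval (v + u) q)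
    (hq : q.IsHomogeneous b) : u ∈ Stab q := by
  intro v
  -- `s ↦ q (v + s u) - q (v + u)`
  let p : Polynomial K := aeval (fun i => Polynomial.C (v i) + Polynomial.C (u i) * Polynomial.X) q
    - Polynomial.C (eval (v + u) q)
  have hp : ∀ s, p.eval s = eval (v + s • u) q - eval (v + u) q := by
    intro s
    have h1 : Polynomial.eval s (aeval (fun i => Polynomial.C (v i) + Polynomial.C (u i) *
        Polynomial.X) q) = eval (v + s • u) q := by
      have h2 : (Polynomial.evalRingHom s).comp ((aeval (fun i => Polynomial.C (v i) +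
          Polynomial.C (u i) * Polynomial.X) : MvPolynomial σ K →ₐ[K] Polynomial K) :
            MvPolynomial σ K →+* Polynomial K) = eval (v + s • u) := by
        apply MvPolynomial.ringHom_ext
        · intro a
          simp
        · intro i
          rw [RingHom.comp_apply]
          change Polynomial.eval s (aeval _ (X i)) = eval (v + s • u) (X i)
          rw [aeval_X, eval_X, Polynomial.eval_add, Polynomial.eval_mul, Polynomial.eval_C,
            Polynomial.eval_C, Polynomial.eval_X, Pi.add_apply, Pi.smul_apply, smul_eq_mul,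
            mul_comm]
      have h3 := congrArg (fun f : MvPolynomial σ K →+* K => f q) h2
      exact h3
    rw [Polynomial.eval_sub, Polynomial.eval_C, h1]
  have h0 : p = 0 := by
    apply Polynomial.eq_zero_of_infinite_isRoot
    have hsub : ({0}ᶜ : Set K) ⊆ {x | p.IsRoot x} := by
      intro s hs
      have hs0 : s ≠ 0 := hs
      change p.eval s = 0
      rw [hp]
      have h1 := h s (s⁻¹ • v)
      rw [smul_smul, mul_inv_cancel₀ hs0, one_smul] at h1
      have e1 : v + s • u = s • (s⁻¹ • v + u) := by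
        rw [smul_add, smul_smul, mul_inv_cancel₀ hs0, one_smul]
      rw [e1, eval_smul_hom hq, ← h1, sub_self]
    exact Set.Infinite.mono hsub (Set.finite_singleton (0 : K)).infinite_compl
  have h1 := hp 0
  rw [h0, Polynomial.eval_zero, zero_smul, add_zero] at h1
  exact (sub_eq_zero.1 h1.symm).symm

theorem two_pow_ne [CharZero K] {a b : ℕ} (h : a ≠ b) : (2 : K) ^ a ≠ 2 ^ b := by
  intro h1
  have h2 : ((2 ^ a : ℕ) : K) = ((2 ^ b : ℕ) : K) := by push_cast; exact h1
  exact h (Nat.pow_right_injective le_rfl (Nat.cast_injective h2))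

/-- **The case of equality.** -/
theorem eq_case [CharZero K] {N : σ} {e d : ℕ} (he : 1 ≤ e) (hed : e < d)
    {Q : MvPolynomial σ K} {b W : ℕ} {c : σ → K} (hc : c N ≠ 0) (hdeg : Q.totalDegree ≤ b)
    (hw : ∀ (t : K) (x : σ → K), eval (ws N e d t x) Q = t ^ W * eval x Q)
    (hlo : ∀ j < b, homogeneousComponent j (tr c Q) = 0) :
    Q.IsHomogeneous b ∧ Pi.single N 1 ∈ Stab Q ∧ tr c Q = Q := by
  have hinf : Infinite K := CharZero.infinite K
  set q := tr c Q with hq
  have hqh : q.IsHomogeneous b := isHomogeneous_of_comp (totalDegree_tr c hdeg) hlo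
  have hQq : ∀ v, eval (v + c) Q = eval v q := fun v => (eval_tr c v Q).symm
  -- the translations by `t · c - c`
  have hu : ∀ t : K, t ≠ 0 → (ws N e d t c - c) ∈ Stab q := by
    intro t ht
    have hg : ∀ v, eval (v + (ws N e d t c - c)) q = t ^ W * eval (ws N e d t⁻¹ v) q := by
      intro v
      rw [← hQq, ← hQq, ← hw]
      congr 2
      funext i
      simp only [ws, Pi.add_apply, Pi.sub_apply]
      rw [mul_add, ← mul_assoc, ← mul_pow, mul_inv_cancel₀ ht, one_pow, one_mul]
      ring
    refine stab_of_hom (b := b) (fun s v => ?_) hqh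
    rw [hg, hg]
    have e1 : ws N e d t⁻¹ (s • v) = s • ws N e d t⁻¹ v := by
      funext i
      simp only [ws, Pi.smul_apply, smul_eq_mul]
      ring
    rw [e1, eval_smul_hom hqh]
    ring
  have h2 := hu 2 two_ne_zero
  have h4 := hu (2 ^ 2) (pow_ne_zero 2 two_ne_zero)
  -- the coordinate vector
  have hz : Pi.single N 1 ∈ Stab q := by
    have h5 := Stab.add h4 (Stab.smul hqh h2 (-((2 : K) ^ e + 1)))
    have hcoef : ((2 : K) ^ d - 1) * ((2 : K) ^ d - 2 ^ e) * c N ≠ 0 := by
      refine mul_ne_zero (mul_ne_zero ?_ ?_) hc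
      · have := two_pow_ne (K := K) (a := d) (b := 0) (by omega)
        rw [pow_zero] at this
        exact sub_ne_zero.2 this
      · exact sub_ne_zero.2 (two_pow_ne (by omega))
    have h6 := Stab.smul hqh h5 ((((2 : K) ^ d - 1) * ((2 : K) ^ d - 2 ^ e) * c N)⁻¹)
    have e1 : ((((2 : K) ^ d - 1) * ((2 : K) ^ d - 2 ^ e) * c N)⁻¹ •
        (ws N e d (2 ^ 2) c - c + -((2 : K) ^ e + 1) • (ws N e d 2 c - c))) =
        (Pi.single N 1 : σ → K) := by
      rw [inv_smul_eq_iff₀ hcoef]
      have hpp : ∀ n : ℕ, ((2 : K) ^ 2) ^ n = (2 ^ n) ^ 2 := fun n => by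
        rw [← pow_mul, ← pow_mul, mul_comm]
      funext i
      simp only [ws, wt, Pi.add_apply, Pi.sub_apply, Pi.smul_apply, smul_eq_mul, hpp]
      by_cases hi : i = N
      · subst hi
        rw [if_pos rfl, Pi.single_eq_same]
        generalize (2 : K) ^ e = A
        generalize (2 : K) ^ d = B
        ring
      · rw [if_neg hi, Pi.single_eq_of_ne hi]
        generalize (2 : K) ^ e = A
        ring
    rw [e1] at h6
    exact h6
  -- the point `c`
  have hcs : c ∈ Stab q := by
    have hne : (2 : K) ^ e - 1 ≠ 0 := by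
      have := two_pow_ne (K := K) (a := e) (b := 0) (by omega)
      rw [pow_zero] at this
      exact sub_ne_zero.2 this
    have h5 := Stab.add h2 (Stab.smul hqh hz (-(((2 : K) ^ d - 2 ^ e) * c N)))
    have h6 := Stab.smul hqh h5 (((2 : K) ^ e - 1)⁻¹)
    have e1 : ((2 : K) ^ e - 1)⁻¹ • (ws N e d 2 c - c + -(((2 : K) ^ d - 2 ^ e) * c N) •
        (Pi.single N 1 : σ → K)) = c := by
      rw [inv_smul_eq_iff₀ hne]
      funext i
      simp only [ws, wt, Pi.add_apply, Pi.sub_apply, Pi.smul_apply, smul_eq_mul]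
      by_cases hi : i = N
      · subst hi
        rw [if_pos rfl, Pi.single_eq_same]
        ring
      · rw [if_neg hi, Pi.single_eq_of_ne hi]
        ring
    rw [e1] at h6
    exact h6
  have hQ : Q = q := by
    apply MvPolynomial.funext
    intro v
    have h5 := hQq (v - c)
    rw [sub_add_cancel] at h5
    rw [h5, sub_eq_add_neg, Stab.neg hcs v]
  rw [← hQ] at hqh hz
  exact ⟨hqh, hz, hQ.symm⟩

/-- The weight in the case of equality. -/
theorem weight_eq [CharZero K] {N : σ} {e d : ℕ} {Q : MvPolynomial σ K} {b W : ℕ}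
    (hQ0 : Q ≠ 0) (hw : ∀ (t : K) (x : σ → K), eval (ws N e d t x) Q = t ^ W * eval x Q)
    (hQ : Q.IsHomogeneous b) (hz : Pi.single N 1 ∈ Stab Q) : W = e * b := by
  have hinf : Infinite K := CharZero.infinite K
  obtain ⟨x, hx⟩ : ∃ x, eval x Q ≠ 0 := by
    by_contra hcon
    push Not at hcon
    exact hQ0 (MvPolynomial.funext fun v => by rw [hcon v, map_zero])
  have h1 := hw 2 x
  have e1 : ws N e d 2 x = (2 : K) ^ e • x + (((2 : K) ^ d - 2 ^ e) * x N) •
      (Pi.single N 1 : σ → K) := by
    funext i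
    simp only [ws, wt, Pi.add_apply, Pi.smul_apply, smul_eq_mul]
    by_cases hi : i = N
    · subst hi
      rw [if_pos rfl, Pi.single_eq_same]
      ring
    · rw [if_neg hi, Pi.single_eq_of_ne hi]
      ring
  rw [e1, Stab.smul hQ hz, eval_smul_hom hQ, ← pow_mul] at h1
  by_contra hne
  exact two_pow_ne (K := K) (Ne.symm hne) (mul_right_cancel₀ hx h1)

end Pool.Agent.Helper52.GR
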