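import Pool.Agent.Helper52.GR.Step

/-!
# The termination theorem
-/

set_option autoImplicit false

namespace Pool.Agent.Helper52.GR

open MvPolynomial

variable {σ : Type*} [DecidableEq σ] [Fintype σ] {K : Type*} [Field K] [CharZero K]

/-- **One step.** -/
theorem step {N : σ} {e f : ℕ} (he : 1 ≤ e) (hf : 1 ≤ f) {Φ : σ → MvPolynomial σ K}
    (hdeg : ∀ i, (Φ i).totalDegree ≤ wt N e (e + f) i) {J : Matrix σ σ K}
    (hJ : ∀ i, homogeneousComponent 1 (tr (Pi.single N (1 : K))
      (homogeneousComponent (wt N e (e + f) i) (Φ i))) = ∑ j, C (J i j) * X j)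
    (hJu : IsUnit J) (ha : eval (Pi.single N (1 : K)) (homogeneousComponent (e + f) (Φ N)) ≠ 0)
    {F : MvPolynomial σ K} {D b : ℕ} {g : MvPolynomial σ K} (h : St N F D b g) :
    ∃ D' b' g', St N (bind₁ Φ F) D' b' g' ∧ (b' < b ∨ (b' = b ∧ Pi.single N 1 ∈ Stab g ∧
      ∃ κ : K, κ ≠ 0 ∧ ∀ v, eval v g' = κ * eval (J.mulVec v) g)) := by
  have hinf : Infinite K := CharZero.infinite K
  set z : σ → K := Pi.single N (1 : K) with hz
  set T := homogeneousComponent D F with hT
  have hTdeg : T.totalDegree ≤ D := (homogeneousComponent_isHomogeneous D F).totalDegree_le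
  -- `b ≤ D`
  have hbD : b ≤ D := by
    by_contra hcon
    push Not at hcon
    apply h.ne
    rw [← h.lo.2]
    exact homogeneousComponent_eq_zero _ _ (lt_of_le_of_lt (totalDegree_tr z hTdeg) hcon)
  obtain ⟨n₀, hn₀⟩ : ∃ n₀, D = n₀ + b := ⟨D - b, by omega⟩
  -- a monomial of `T` of order at most `b`
  obtain ⟨s₀, hs₀F, hs₀D, hs₀b⟩ : ∃ s ∈ F.support, s.degree = D ∧ s.degree - s N ≤ b := by
    by_contra hcon
    push Not at hcon
    apply h.ne
    rw [← h.lo.2]
    refine ord_tr (k := b + 1) (fun s hs => ?_) b (Nat.lt_succ_self b)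
    rw [mem_support_iff, coeff_homogeneousComponent] at hs
    split_ifs at hs with h1
    · exact hcon s (mem_support_iff.2 hs) h1
    · exact absurd rfl hs
  have hF0 : F.support.Nonempty := ⟨s₀, hs₀F⟩
  set w := wt N e (e + f) with hw
  have hwt : ∀ s : σ →₀ ℕ, Finsupp.weight w s = e * s.degree + f * s N := fun s =>
    weight_wt N e f s
  obtain ⟨s₁, hs₁F, hs₁⟩ := Finset.exists_max_image F.support (fun s => Finsupp.weight w s) hF0
  set W := Finsupp.weight w s₁ with hW
  have hdegF : ∀ s ∈ F.support, s.degree ≤ D := fun s hs => (le_totalDegree hs).trans h.deg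
  have hWge : e * D + f * n₀ ≤ W := by
    refine le_trans ?_ (hs₁ s₀ hs₀F)
    rw [hwt, hs₀D]
    have h1 : n₀ ≤ s₀ N := by omega
    exact Nat.add_le_add_left (Nat.mul_le_mul_left f h1) _
  set Q := weightedHomogeneousComponent w W F with hQ
  have hQc : ∀ s, coeff s Q = if Finsupp.weight w s = W then coeff s F else 0 := fun s =>
    coeff_weightedHomogeneousComponent _ _ s
  have hQ0 : Q ≠ 0 := by
    intro h0
    have h1 := hQc s₁
    rw [h0, if_pos rfl, coeff_zero] at h1
    exact mem_support_iff.1 hs₁F h1.symm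
  have hQs : ∀ s ∈ Q.support, s ∈ F.support ∧ Finsupp.weight w s = W := by
    intro s hs
    rw [mem_support_iff, hQc] at hs
    split_ifs at hs with h1
    · exact ⟨mem_support_iff.2 hs, h1⟩
    · exact absurd rfl hs
  have hQN : ∀ s ∈ Q.support, n₀ ≤ s N := by
    intro s hs
    obtain ⟨h1, h2⟩ := hQs s hs
    rw [hwt] at h2
    have h3 : e * s.degree ≤ e * D := Nat.mul_le_mul_left e (hdegF s h1)
    have h4 : f * n₀ ≤ f * s N := by omega
    exact Nat.le_of_mul_le_mul_left h4 (by omega)
  -- division
  set Q₁ := Q.divMonomial (Finsupp.single N n₀) with hQ₁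
  have hQ₁c : ∀ s, coeff s Q₁ = coeff (Finsupp.single N n₀ + s) Q := fun s =>
    coeff_divMonomial _ _ _
  have hQQ : Q = X N ^ n₀ * Q₁ := by
    have h1 := divMonomial_add_modMonomial Q (Finsupp.single N n₀)
    have h2 : Q.modMonomial (Finsupp.single N n₀) = 0 := by
      ext s
      rw [coeff_zero]
      by_cases hs : Finsupp.single N n₀ ≤ s
      · exact coeff_modMonomial_of_le _ hs
      · rw [coeff_modMonomial_of_not_le _ hs]
        by_contra h3
        apply hs
        rw [Finsupp.single_le_iff]
        exact hQN s (mem_support_iff.2 h3)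
    rw [h2, add_zero] at h1
    rw [← h1]
    congr 1
    rw [X_pow_eq_monomial]
  have hQ₁0 : Q₁ ≠ 0 := by
    intro h0
    rw [h0, mul_zero] at hQQ
    exact hQ0 hQQ
  have hQ₁s : ∀ s ∈ Q₁.support, Finsupp.single N n₀ + s ∈ Q.support := by
    intro s hs
    rw [mem_support_iff, ← hQ₁c]
    exact mem_support_iff.1 hs
  have hsing : ∀ s : σ →₀ ℕ, (Finsupp.single N n₀ + s).degree = n₀ + s.degree := fun s => by
    rw [map_add, Finsupp.degree_single]
  have hQ₁deg : Q₁.totalDegree ≤ b := by
    refine totalDegree_le_of fun s hs => ?_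
    have h1 := hdegF _ (hQs _ (hQ₁s s hs)).1
    rw [hsing] at h1
    omega
  obtain ⟨W₁, hW₁⟩ : ∃ W₁, ∀ s ∈ Q₁.support, Finsupp.weight w s = W₁ := by
    refine ⟨W - (e * n₀ + f * n₀), fun s hs => ?_⟩
    have h1 := (hQs _ (hQ₁s s hs)).2
    rw [map_add, hwt (Finsupp.single N n₀), Finsupp.degree_single, Finsupp.single_eq_same] at h1
    omega
  have hws : ∀ (t : K) (x : σ → K), eval (ws N e (e + f) t x) Q₁ = t ^ W₁ * eval x Q₁ :=
    eval_ws hW₁
  -- the point and the local coordinates
  set Ψ : σ → MvPolynomial σ K := fun i => homogeneousComponent (w i) (Φ i) with hΨ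
  set c : σ → K := fun i => eval z (Ψ i) with hc
  have hwN : w N = e + f := by rw [hw, wt, if_pos rfl]
  have hcN : c N ≠ 0 := by
    simp only [hc, hΨ, hwN]
    exact ha
  set ℓ : σ → MvPolynomial σ K := fun i => ∑ j, C (J i j) * X j with hℓ
  set Θ : σ → MvPolynomial σ K := fun i => tr z (Ψ i) - C (c i) with hΘ
  have hΘlo : ∀ i, Lo 1 (Θ i) (ℓ i) := by
    intro i
    constructor
    · intro j hj
      have hj0 : j = 0 := by omega
      rw [hj0, homogeneousComponent_zero, hΘ, coeff_sub, coeff_zero_tr, coeff_C, if_pos rfl,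
        sub_self, map_zero]
    · rw [hΘ, map_sub, hJ i, homogeneousComponent_eq_zero 1 (C (c i))
        (by rw [totalDegree_C]; exact Nat.one_pos), sub_zero]
  set P := tr c Q₁ with hP
  have hP0 : P ≠ 0 := fun h0 => hQ₁0 (tr_zero_iff.1 h0)
  have hPdeg : P.totalDegree ≤ b := totalDegree_tr c hQ₁deg
  have hex : ∃ j, homogeneousComponent j P ≠ 0 := by
    by_contra hcon
    push Not at hcon
    apply hP0
    rw [← sum_homogeneousComponent P]
    exact Finset.sum_eq_zero fun j _ => hcon j
  classical
  set μ := Nat.find hex with hμ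
  have hμ0 : homogeneousComponent μ P ≠ 0 := Nat.find_spec hex
  have hμlt : ∀ j < μ, homogeneousComponent j P = 0 := fun j hj => by
    by_contra h0
    exact Nat.find_min hex hj h0
  have hμb : μ ≤ b := by
    by_contra hcon
    push Not at hcon
    exact hμ0 (homogeneousComponent_eq_zero _ _ (lt_of_le_of_lt hPdeg hcon))
  have hLo1 : Lo μ (bind₁ Θ P) (bind₁ ℓ (homogeneousComponent μ P)) := Lo.comp hΘlo hμlt
  have htr : bind₁ Θ P = tr z (bind₁ Ψ Q₁) := by
    rw [hP, bind_tr]
    have h1 : (fun i => Θ i + C (c i)) = fun i => tr z (Ψ i) := by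
      funext i
      rw [hΘ, sub_add_cancel]
    rw [h1, tr, bind₁_bind₁]
  have hLoN : Lo 0 (tr z (Ψ N)) (C (c N)) := by
    refine ⟨fun j hj => absurd hj (Nat.not_lt_zero j), ?_⟩
    rw [homogeneousComponent_zero, coeff_zero_tr]
  obtain ⟨hdeg', htop⟩ := hi_comp w Φ hdeg F W (fun s hs => hs₁ s hs)
  have htopQ : homogeneousComponent W (bind₁ Φ F) = Ψ N ^ n₀ * bind₁ Ψ Q₁ := by
    rw [htop]
    change bind₁ Ψ Q = _
    rw [hQQ, map_mul, map_pow, bind₁_X_right]
  have hLo2 : Lo μ (tr z (homogeneousComponent W (bind₁ Φ F)))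
      (C (c N) ^ n₀ * bind₁ ℓ (homogeneousComponent μ P)) := by
    rw [htopQ, map_mul, map_pow]
    have h1 := (hLoN.pow n₀).mul (htr ▸ hLo1)
    rwa [mul_zero, zero_add] at h1
  have hg' : C (c N) ^ n₀ * bind₁ ℓ (homogeneousComponent μ P) ≠ 0 := by
    refine mul_ne_zero (pow_ne_zero _ ?_) (lin_ne hJu hμ0)
    rw [Ne, C_eq_zero]
    exact hcN
  refine ⟨W, μ, _, ⟨hdeg', hLo2, hg'⟩, ?_⟩
  rcases lt_or_eq_of_le hμb with hlt | heq
  · exact Or.inl hlt
  right
  refine ⟨heq, ?_⟩
  obtain ⟨hQh, hzS, hcS⟩ := eq_case he (by omega : e < e + f) hcN hQ₁deg hws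
    (fun j hj => hμlt j (by omega))
  have hW₁b : W₁ = e * b := weight_eq hQ₁0 hws hQh hzS
  -- the total weight
  have hWval : W = e * D + f * n₀ := by
    obtain ⟨s, hs⟩ : Q₁.support.Nonempty := by
      rw [Finset.nonempty_iff_ne_empty, Ne, support_eq_empty]
      exact hQ₁0
    have h1 := (hQs _ (hQ₁s s hs)).2
    rw [map_add, hwt (Finsupp.single N n₀), Finsupp.degree_single, Finsupp.single_eq_same,
      hW₁ s hs, hW₁b] at h1
    rw [← h1, hn₀]
    ring
  -- `g = Q₁`
  have hgQ : g = Q₁ := by
    have hR : ∀ j < b + 1, homogeneousComponent j (tr z (T - Q)) = 0 := by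
      refine ord_tr fun s hs => ?_
      rw [mem_support_iff, coeff_sub, hT, coeff_homogeneousComponent, hQc] at hs
      by_cases h1 : s.degree = D
      · by_cases h2 : Finsupp.weight w s = W
        · rw [if_pos h1, if_pos h2, sub_self] at hs
          exact absurd rfl hs
        · rw [if_pos h1, if_neg h2, sub_zero] at hs
          have h3 := lt_of_le_of_ne (hs₁ s (mem_support_iff.2 hs)) h2
          change Finsupp.weight w s < W at h3
          rw [hwt, h1, hWval] at h3
          have h4 : f * s N < f * n₀ := by omega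
          have h5 : s N < n₀ := Nat.lt_of_mul_lt_mul_left h4
          omega
      · exfalso
        rw [if_neg h1, zero_sub, neg_ne_zero] at hs
        split_ifs at hs with h2
        · have h3 : s ∈ Q.support := by
            rw [mem_support_iff, hQc, if_pos h2]
            exact hs
          have h4 : Finsupp.single N n₀ ≤ s := by
            rw [Finsupp.single_le_iff]
            exact hQN s h3
          obtain ⟨t, rfl⟩ := exists_add_of_le h4
          have h5 : t ∈ Q₁.support := by
            rw [mem_support_iff, hQ₁c]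
            exact mem_support_iff.1 h3
          have h6 : t.degree = b := by
            rw [← hQh (mem_support_iff.1 h5), Finsupp.degree_eq_weight_one]
            rfl
          apply h1
          rw [hsing, h6, hn₀]
        · exact absurd rfl hs
    have hLoQ : Lo b (tr z Q) Q₁ := by
      have h1 : tr z Q₁ = Q₁ := by
        apply MvPolynomial.funext
        intro v
        rw [eval_tr]
        exact hzS v
      have h2 : Lo 0 (tr z (X N : MvPolynomial σ K)) 1 := by
        refine ⟨fun j hj => absurd hj (Nat.not_lt_zero j), ?_⟩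
        rw [homogeneousComponent_zero, coeff_zero_tr, eval_X, hz, Pi.single_eq_same, map_one]
      have h3 := (h2.pow n₀).mul (lo_hom hQh)
      rw [mul_zero, zero_add, one_pow, one_mul] at h3
      rw [hQQ, map_mul, map_pow, h1]
      exact h3
    have h1 : T = Q + (T - Q) := by ring
    rw [← h.lo.2]
    change homogeneousComponent b (tr z T) = Q₁
    rw [h1, map_add, map_add, hLoQ.2, hR b (Nat.lt_succ_self b), add_zero]
  refine ⟨hgQ ▸ hzS, c N ^ n₀, pow_ne_zero _ hcN, fun v => ?_⟩
  have hPQ : P = Q₁ := hcS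
  have h1 : homogeneousComponent μ P = Q₁ := by
    rw [hPQ, heq]
    exact (lo_hom hQh).2
  rw [map_mul, map_pow, eval_C, h1, eval_lin, hgQ]

/-- Iteration. -/
theorem iter {N : σ} {e f : ℕ} (he : 1 ≤ e) (hf : 1 ≤ f) {Φ : σ → MvPolynomial σ K}
    (hdeg : ∀ i, (Φ i).totalDegree ≤ wt N e (e + f) i) {J : Matrix σ σ K}
    (hJ : ∀ i, homogeneousComponent 1 (tr (Pi.single N (1 : K))
      (homogeneousComponent (wt N e (e + f) i) (Φ i))) = ∑ j, C (J i j) * X j)
    (hJu : IsUnit J) (ha : eval (Pi.single N (1 : K)) (homogeneousComponent (e + f) (Φ N)) ≠ 0)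
    {b : ℕ} (n : ℕ) : ∀ {F : MvPolynomial σ K} {D : ℕ} {g : MvPolynomial σ K}, St N F D b g →
      (∃ k D' b' g', St N ((bind₁ Φ)^[k] F) D' b' g' ∧ b' < b) ∨
        ∀ k < n, (J ^ k).mulVec (Pi.single N 1) ∈ Stab g := by
  induction n with
  | zero =>
    intro F D g _
    exact Or.inr fun k hk => absurd hk (Nat.not_lt_zero k)
  | succ n ih =>
    intro F D g h
    obtain ⟨D', b', g', h1, h2⟩ := step he hf hdeg hJ hJu ha h
    rcases h2 with h2 | ⟨rfl, h3, κ, hκ, h4⟩
    · exact Or.inl ⟨1, D', b', g', h1, h2⟩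
    · rcases ih h1 with ⟨k, D'', b'', g'', h5, h6⟩ | h5
      · exact Or.inl ⟨k + 1, D'', b'', g'', h5, h6⟩
      · right
        intro k hk
        rcases Nat.eq_zero_or_pos k with rfl | hk0
        · rw [pow_zero, Matrix.one_mulVec]
          exact h3
        · obtain ⟨l, rfl⟩ : ∃ l, k = l + 1 := ⟨k - 1, by omega⟩
          have h6 := h5 l (by omega)
          intro v
          obtain ⟨u, hu⟩ := hJu
          have h7 := h6 ((u⁻¹ : (Matrix σ σ K)ˣ).1.mulVec v)
          rw [h4, h4, Matrix.mulVec_add, ← hu, Matrix.mulVec_mulVec, Units.mul_inv,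
            Matrix.one_mulVec, Matrix.mulVec_mulVec, hu] at h7
          have h8 := mul_left_cancel₀ hκ h7
          rw [← pow_succ'] at h8
          exact h8

/-- **Termination.** -/
theorem exists_drop {N : σ} {e f : ℕ} (he : 1 ≤ e) (hf : 1 ≤ f) {Φ : σ → MvPolynomial σ K}
    (hdeg : ∀ i, (Φ i).totalDegree ≤ wt N e (e + f) i) {J : Matrix σ σ K}
    (hJ : ∀ i, homogeneousComponent 1 (tr (Pi.single N (1 : K))
      (homogeneousComponent (wt N e (e + f) i) (Φ i))) = ∑ j, C (J i j) * X j)
    (hJu : IsUnit J) (ha : eval (Pi.single N (1 : K)) (homogeneousComponent (e + f) (Φ N)) ≠ 0)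
    {n : ℕ} (hcyc : Submodule.span K {u | ∃ k < n, u = (J ^ k).mulVec (Pi.single N 1)} = ⊤)
    {F : MvPolynomial σ K} (hF : F ≠ 0) :
    ∃ k, coeff (Finsupp.single N ((bind₁ Φ)^[k] F).totalDegree) ((bind₁ Φ)^[k] F) ≠ 0 := by
  have hinf : Infinite K := CharZero.infinite K
  have key : ∀ (b : ℕ) (F : MvPolynomial σ K) (D : ℕ) (g : MvPolynomial σ K), St N F D b g →
      ∃ k D' g', St N ((bind₁ Φ)^[k] F) D' 0 g' := by
    intro b
    induction b using Nat.strong_induction_on with
    | _ b ih =>
      intro F D g h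
      rcases Nat.eq_zero_or_pos b with rfl | hb
      · exact ⟨0, D, g, h⟩
      rcases iter he hf hdeg hJ hJu ha n h with ⟨k, D', b', g', h1, h2⟩ | h1
      · obtain ⟨l, D'', g'', h3⟩ := ih b' h2 _ D' g' h1
        refine ⟨l + k, D'', g'', ?_⟩
        rw [Function.iterate_add_apply]
        exact h3
      · exfalso
        have hgh : g.IsHomogeneous b := by
          rw [← h.lo.2]
          exact homogeneousComponent_isHomogeneous _ _
        let S : Submodule K (σ → K) :=
          { carrier := Stab g
            add_mem' := fun h h' => Stab.add h h'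
            zero_mem' := fun v => by rw [add_zero]
            smul_mem' := fun t _ h => Stab.smul hgh h t }
        have hS : S = ⊤ := by
          rw [eq_top_iff, ← hcyc, Submodule.span_le]
          rintro u ⟨k, hk, rfl⟩
          exact h1 k hk
        apply h.ne
        apply MvPolynomial.funext
        intro v
        have h2 : v ∈ S := by rw [hS]; trivial
        have h3 := h2 0
        have h4 := eval_smul_hom hgh 0 v
        rw [zero_add] at h3
        rw [zero_smul, zero_pow (by omega), zero_mul] at h4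
        rw [h3, h4, map_zero]
  -- the initial state
  obtain ⟨b, g, h⟩ : ∃ b g, St N F F.totalDegree b g := by
    have hT : homogeneousComponent F.totalDegree F ≠ 0 := by
      intro h0
      obtain ⟨s, hs, hsd⟩ : ∃ s ∈ F.support, F.totalDegree = s.degree := by
        have hne : F.support.Nonempty := by
          rw [Finset.nonempty_iff_ne_empty, Ne, support_eq_empty]
          exact hF
        obtain ⟨s, hs, h1⟩ := Finset.exists_mem_eq_sup F.support hne
          (fun s => s.sum fun _ e => e)
        refine ⟨s, hs, ?_⟩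
        rw [Finsupp.degree_apply]
        exact h1
      have h1 := coeff_homogeneousComponent F.totalDegree F s
      rw [h0, coeff_zero, if_pos hsd.symm] at h1
      exact mem_support_iff.1 hs h1.symm
    have hP0 : tr (Pi.single N (1 : K)) (homogeneousComponent F.totalDegree F) ≠ 0 :=
      fun h0 => hT (tr_zero_iff.1 h0)
    have hex : ∃ j, homogeneousComponent j (tr (Pi.single N (1 : K))
        (homogeneousComponent F.totalDegree F)) ≠ 0 := by
      by_contra hcon
      push Not at hcon
      apply hP0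
      rw [← sum_homogeneousComponent (tr (Pi.single N (1 : K))
        (homogeneousComponent F.totalDegree F))]
      exact Finset.sum_eq_zero fun j _ => hcon j
    classical
    refine ⟨Nat.find hex, _, le_rfl, ⟨fun j hj => ?_, rfl⟩, Nat.find_spec hex⟩
    by_contra h0
    exact Nat.find_min hex hj h0
  obtain ⟨k, D', g', h1⟩ := key b F _ g h
  refine ⟨k, ?_⟩
  set G := (bind₁ Φ)^[k] F with hG
  -- the value of the top form at `e_N`
  have h2 : coeff (Finsupp.single N D') G ≠ 0 := by
    have h3 := h1.lo.2
    rw [homogeneousComponent_zero, coeff_zero_tr] at h3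
    have h4 : eval (Pi.single N (1 : K)) (homogeneousComponent D' G) =
        coeff (Finsupp.single N D') G := by
      rw [eval_eq']
      rw [Finset.sum_eq_single (Finsupp.single N D')]
      · rw [coeff_homogeneousComponent, Finsupp.degree_single, if_pos rfl]
        rw [Finset.prod_eq_one, mul_one]
        intro i _
        by_cases hi : i = N
        · subst hi
          rw [Pi.single_eq_same, one_pow]
        · rw [Finsupp.single_eq_of_ne hi, pow_zero]
      · intro s hs hne
        have hsD : s.degree = D' := by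
          rw [mem_support_iff, coeff_homogeneousComponent] at hs
          by_contra hcon
          rw [if_neg hcon] at hs
          exact hs rfl
        obtain ⟨i, hiN, hi⟩ : ∃ i, i ≠ N ∧ s i ≠ 0 := by
          by_contra hcon
          push Not at hcon
          apply hne
          ext i
          by_cases hi : i = N
          · subst hi
            rw [Finsupp.single_eq_same, ← hsD, Finsupp.degree_eq_sum]
            rw [Finset.sum_eq_single i (fun j _ hj => hcon j hj)
              (fun hj => absurd (Finset.mem_univ i) hj)]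
          · rw [hcon i hi, Finsupp.single_eq_of_ne hi]
        rw [Finset.prod_eq_zero (Finset.mem_univ i), mul_zero]
        rw [Pi.single_eq_of_ne hiN, zero_pow hi]
      · intro hs
        rw [notMem_support_iff.1 hs, zero_mul]
    intro h5
    apply h1.ne
    rw [← h3, h4, h5, map_zero]
  have h3 : G.totalDegree = D' := by
    refine le_antisymm h1.deg ?_
    have h4 := le_totalDegree (mem_support_iff.2 h2)
    rwa [Finsupp.sum_single_index rfl] at h4
  rw [h3]
  exact h2

end Pool.Agent.Helper52.GR
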