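import Pool.Agent.Helper52.GR.Equal

/-!
# One step
-/

set_option autoImplicit false

namespace Pool.Agent.Helper52.GR

open MvPolynomial

variable {σ : Type*} [DecidableEq σ] {K : Type*} [Field K]

omit [DecidableEq σ] in
theorem totalDegree_le_of {A : MvPolynomial σ K} {b : ℕ} (h : ∀ s ∈ A.support, s.degree ≤ b) :
    A.totalDegree ≤ b := by
  refine Finset.sup_le fun s hs => ?_
  have := h s hs
  rwa [Finsupp.degree_apply] at this

theorem eval_ws {N : σ} {e d : ℕ} {Q : MvPolynomial σ K} {W : ℕ}
    (h : ∀ s ∈ Q.support, Finsupp.weight (wt N e d) s = W) (t : K) (x : σ → K) :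
    eval (ws N e d t x) Q = t ^ W * eval x Q := by
  rw [eval_eq, eval_eq, Finset.mul_sum]
  refine Finset.sum_congr rfl fun s hs => ?_
  have h2 : ∏ i ∈ s.support, ws N e d t x i ^ s i = t ^ W * ∏ i ∈ s.support, x i ^ s i := by
    simp only [ws, mul_pow, Finset.prod_mul_distrib, ← pow_mul]
    rw [Finset.prod_pow_eq_pow_sum]
    congr 2
    rw [← h s hs, Finsupp.weight_apply, Finsupp.sum]
    exact Finset.sum_congr rfl fun i _ => by rw [smul_eq_mul, mul_comm]
  rw [h2]
  ring

theorem weight_wt [Fintype σ] (N : σ) (e f : ℕ) (s : σ →₀ ℕ) :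
    Finsupp.weight (wt N e (e + f)) s = e * s.degree + f * s N := by
  have h0 : Finsupp.weight (wt N e (e + f)) s = ∑ i, s i • wt N e (e + f) i := by
    rw [Finsupp.weight_apply]
    exact Finsupp.sum_fintype _ _ fun i => zero_smul _ _
  rw [h0, Finsupp.degree_eq_sum, Finset.mul_sum,
    ← Finset.add_sum_erase _ _ (Finset.mem_univ N),
    ← Finset.add_sum_erase _ (fun i => e * s i) (Finset.mem_univ N)]
  have h1 : ∑ x ∈ Finset.univ.erase N, s x • wt N e (e + f) x =
      ∑ x ∈ Finset.univ.erase N, e * s x := by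
    refine Finset.sum_congr rfl fun i hi => ?_
    rw [wt, if_neg (Finset.ne_of_mem_erase hi), smul_eq_mul, mul_comm]
  rw [h1, wt, if_pos rfl, smul_eq_mul]
  ring

omit [DecidableEq σ] in
theorem coeff_zero_tr (z : σ → K) (A : MvPolynomial σ K) : coeff 0 (tr z A) = eval z A := by
  have h := eval_tr z 0 A
  rw [zero_add] at h
  rw [← h, MvPolynomial.eval_zero]
  rfl

theorem ord_tr_monomial [Fintype σ] (N : σ) (s : σ →₀ ℕ) (a : K) :
    ∀ j < s.degree - s N, homogeneousComponent j (tr (Pi.single N (1 : K)) (monomial s a)) = 0 := by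
  have h1 : tr (Pi.single N (1 : K)) (monomial s a) = C a * ∏ i ∈ s.support,
      (X i + C ((Pi.single N (1 : K) : σ → K) i)) ^ s i := bind₁_monomial _ _ _
  have h2 := Lo.prod s.support (fun i => (X i + C ((Pi.single N (1 : K) : σ → K) i)) ^ s i)
    (fun i => (if i = N then 1 else X i) ^ s i) (fun i => s i * if i = N then 0 else 1)
    (fun i _ => by
      apply Lo.pow
      by_cases hi : i = N
      · subst hi
        rw [if_pos rfl, if_pos rfl, Pi.single_eq_same]
        refine ⟨fun j hj => absurd hj (Nat.not_lt_zero j), ?_⟩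
        rw [homogeneousComponent_zero]
        simp
      · rw [if_neg hi, if_neg hi, Pi.single_eq_of_ne hi, map_zero, add_zero]
        exact lo_hom (isHomogeneous_X K i))
  have h3 : ∑ i ∈ s.support, (s i * if i = N then 0 else 1) = s.degree - s N := by
    have h4 : s.degree = ∑ i ∈ s.support, (s i * if i = N then 0 else 1) + s N := by
      rw [Finsupp.degree_apply]
      by_cases hN : N ∈ s.support
      · rw [← Finset.add_sum_erase _ _ hN,
          ← Finset.add_sum_erase _ (fun i => s i * if i = N then 0 else 1) hN]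
        have h5 : ∑ i ∈ s.support.erase N, (s i * if i = N then 0 else 1) =
            ∑ i ∈ s.support.erase N, s i := by
          refine Finset.sum_congr rfl fun i hi => ?_
          rw [if_neg (Finset.ne_of_mem_erase hi), mul_one]
        rw [h5, if_pos rfl]
        ring
      · rw [Finsupp.notMem_support_iff.1 hN, add_zero]
        refine Finset.sum_congr rfl fun i hi => ?_
        have hiN : i ≠ N := by
          rintro rfl
          exact hN hi
        rw [if_neg hiN, mul_one]
    omega
  rw [h3] at h2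
  intro j hj
  rw [h1, homogeneousComponent_C_mul, h2.1 j hj, mul_zero]

theorem ord_tr [Fintype σ] {N : σ} {A : MvPolynomial σ K} {k : ℕ}
    (h : ∀ s ∈ A.support, k ≤ s.degree - s N) :
    ∀ j < k, homogeneousComponent j (tr (Pi.single N (1 : K)) A) = 0 := by
  intro j hj
  rw [A.as_sum, map_sum, map_sum]
  refine Finset.sum_eq_zero fun s hs => ?_
  exact ord_tr_monomial N s _ j (lt_of_lt_of_le hj (h s hs))

/-- The state: `F` has degree at most `D`, and the lowest form at `e_N` of its top form has
degree `b` and is `g`. -/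
structure St (N : σ) (F : MvPolynomial σ K) (D b : ℕ) (g : MvPolynomial σ K) : Prop where
  deg : F.totalDegree ≤ D
  lo : Lo b (tr (Pi.single N (1 : K)) (homogeneousComponent D F)) g
  ne : g ≠ 0

omit [DecidableEq σ] in
theorem eval_lin [Fintype σ] (J : Matrix σ σ K) (v : σ → K) (P : MvPolynomial σ K) :
    eval v (bind₁ (fun i => ∑ j, C (J i j) * X j) P) = eval (J.mulVec v) P := by
  rw [eval_bind]
  congr 2
  funext i
  rw [map_sum]
  simp [Matrix.mulVec, dotProduct]

theorem lin_ne [Fintype σ] [Infinite K] {J : Matrix σ σ K} (hJ : IsUnit J)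
    {P : MvPolynomial σ K} (hP : P ≠ 0) : bind₁ (fun i => ∑ j, C (J i j) * X j) P ≠ 0 := by
  intro h
  apply hP
  apply MvPolynomial.funext
  intro v
  obtain ⟨u, hu⟩ := hJ
  have h1 := eval_lin J ((u⁻¹ : (Matrix σ σ K)ˣ).1.mulVec v) P
  rw [h, ← hu, Matrix.mulVec_mulVec, Units.mul_inv, Matrix.one_mulVec] at h1
  rw [← h1, map_zero, map_zero]

end Pool.Agent.Helper52.GR
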