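import Pool.Agent.Helper52.GR.Basic

/-!
# Translations and top forms of compositions
-/

set_option autoImplicit false

namespace Pool.Agent.Helper52.GR

open MvPolynomial

variable {σ : Type*} {K : Type*} [Field K]

/-- Top form of a composition. -/
theorem hi_comp (w : σ → ℕ) (Φ : σ → MvPolynomial σ K) (hΦ : ∀ i, (Φ i).totalDegree ≤ w i)
    (F : MvPolynomial σ K) (W : ℕ) (hW : ∀ s ∈ F.support, Finsupp.weight w s ≤ W) :
    (bind₁ Φ F).totalDegree ≤ W ∧ homogeneousComponent W (bind₁ Φ F) =
      bind₁ (fun i => homogeneousComponent (w i) (Φ i)) (weightedHomogeneousComponent w W F) := by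
  classical
  have key : ∀ s : σ →₀ ℕ, (∏ i ∈ s.support, Φ i ^ s i).totalDegree ≤ Finsupp.weight w s ∧
      homogeneousComponent (Finsupp.weight w s) (∏ i ∈ s.support, Φ i ^ s i) =
        ∏ i ∈ s.support, homogeneousComponent (w i) (Φ i) ^ s i := by
    intro s
    have h1 := hi_prod s.support (fun i => Φ i ^ s i) (fun i => s i * w i) (fun i _ =>
      (totalDegree_pow _ _).trans (Nat.mul_le_mul_left _ (hΦ i)))
    have h2 : ∑ i ∈ s.support, s i * w i = Finsupp.weight w s := by
      rw [Finsupp.weight_apply, Finsupp.sum]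
      rfl
    rw [h2] at h1
    refine ⟨h1.1, h1.2.trans ?_⟩
    exact Finset.prod_congr rfl fun i _ => hi_pow (hΦ i) _
  have hF : bind₁ Φ F = ∑ s ∈ F.support, C (coeff s F) * ∏ i ∈ s.support, Φ i ^ s i := by
    conv_lhs => rw [F.as_sum, map_sum]
    exact Finset.sum_congr rfl fun s _ => bind₁_monomial _ _ _
  constructor
  · rw [hF]
    refine totalDegree_finsetSum_le fun s hs => ?_
    refine (totalDegree_mul _ _).trans ?_
    rw [totalDegree_C, zero_add]
    exact (key s).1.trans (hW s hs)
  · rw [hF, map_sum, weightedHomogeneousComponent_apply, map_sum, Finset.sum_filter]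
    refine Finset.sum_congr rfl fun s hs => ?_
    rw [homogeneousComponent_C_mul]
    split_ifs with h
    · rw [← h, (key s).2, bind₁_monomial]
    · rw [homogeneousComponent_eq_zero _ _ (lt_of_le_of_lt (key s).1
        (lt_of_le_of_ne (hW s hs) h)), mul_zero]

theorem eval_bind (f : σ → MvPolynomial σ K) (A : MvPolynomial σ K) (v : σ → K) :
    eval v (bind₁ f A) = eval (fun i => eval v (f i)) A := by
  exact eval₂Hom_bind₁ (RingHom.id K) v f A

/-- translation -/
noncomputable def tr (c : σ → K) : MvPolynomial σ K →ₐ[K] MvPolynomial σ K :=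
  bind₁ fun i => X i + C (c i)

theorem eval_tr (c v : σ → K) (A : MvPolynomial σ K) : eval v (tr c A) = eval (v + c) A := by
  rw [tr, eval_bind]
  congr 2
  funext i
  simp

theorem totalDegree_tr (c : σ → K) {A : MvPolynomial σ K} {p : ℕ} (h : A.totalDegree ≤ p) :
    (tr c A).totalDegree ≤ p := by
  refine (hi_comp (fun _ => 1) (fun i => X i + C (c i)) (fun i => ?_) A p fun s hs => ?_).1
  · refine (totalDegree_add _ _).trans (max_le ?_ ?_)
    · exact (totalDegree_X i).le
    · rw [totalDegree_C]; exact Nat.zero_le _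
  · have h1 : Finsupp.weight (fun _ : σ => 1) s = s.degree := by
      rw [Finsupp.weight_apply, Finsupp.degree_apply, Finsupp.sum]
      simp
    rw [h1]
    exact (le_totalDegree hs).trans h

theorem tr_zero_iff {c : σ → K} [Infinite K] {A : MvPolynomial σ K} : tr c A = 0 ↔ A = 0 := by
  constructor
  · intro h
    apply MvPolynomial.funext
    intro v
    have h1 := eval_tr c (v - c) A
    rw [h, sub_add_cancel] at h1
    rw [← h1]
    simp
  · rintro rfl
    exact map_zero _

theorem bind_tr (Θ : σ → MvPolynomial σ K) (c : σ → K) (A : MvPolynomial σ K) :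
    bind₁ Θ (tr c A) = bind₁ (fun i => Θ i + C (c i)) A := by
  rw [tr, bind₁_bind₁]
  congr 2
  funext i
  rw [map_add, bind₁_X_right, algHom_C]
  rfl

/-- Homogeneous polynomials as functions. -/
theorem eval_smul_hom {q : MvPolynomial σ K} {b : ℕ} (h : q.IsHomogeneous b) (t : K)
    (v : σ → K) : eval (t • v) q = t ^ b * eval v q := by
  rw [eval_eq, eval_eq, Finset.mul_sum]
  refine Finset.sum_congr rfl fun s hs => ?_
  have h1 : s.degree = b := by
    rw [← h (mem_support_iff.1 hs), Finsupp.degree_eq_weight_one]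
    rfl
  have h2 : ∏ i ∈ s.support, (t • v) i ^ s i = t ^ b * ∏ i ∈ s.support, v i ^ s i := by
    simp only [Pi.smul_apply, smul_eq_mul, mul_pow, Finset.prod_mul_distrib]
    rw [Finset.prod_pow_eq_pow_sum, ← Finsupp.degree_apply, h1]
  rw [h2]
  ring

theorem isHomogeneous_of_comp {q : MvPolynomial σ K} {b : ℕ} (hd : q.totalDegree ≤ b)
    (h : ∀ j < b, homogeneousComponent j q = 0) : q.IsHomogeneous b := by
  have h1 : q = homogeneousComponent b q := by
    conv_lhs => rw [← sum_homogeneousComponent q]
    by_cases hb : q.totalDegree = b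
    · rw [hb, Finset.sum_range_succ, Finset.sum_eq_zero, zero_add]
      exact fun j hj => h j (Finset.mem_range.1 hj)
    · have hlt : q.totalDegree < b := lt_of_le_of_ne hd hb
      rw [homogeneousComponent_eq_zero _ _ hlt, Finset.sum_eq_zero]
      intro j hj
      exact h j (lt_of_le_of_lt (Nat.lt_succ_iff.1 (Finset.mem_range.1 hj)) hlt)
  rw [h1]
  exact homogeneousComponent_isHomogeneous b q

end Pool.Agent.Helper52.GR
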